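import Pool.Agent.Helper15.RA.GoalsK

/-!
# Project RA (MP_cc6379_al), packet RA-F3: P4 and the upper bounds
-/

set_option autoImplicit false

open LaurentPolynomial

noncomputable section

namespace Pool.Agent.Helper5.RA

open Pool.Agent.Helper15.RA

variable {I W V H : Type} [Group W] [Ring H] [Algebra ℤ[T;T⁻¹] H] (X : Ctx I W V H)

/-- The products of two basis elements. -/
theorem tt_lamT (hSB : ∀ n, X.SB n) (M : ℕ) (x y : W) :
    X.LamT M (X.sl x + X.sl y) ((M : ℤ) - X.eps M x [] y) (X.D.t x * X.D.t y) := by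
  have hred : X.Red x (([] : List (W × Bool)).map Prod.fst) y := by
    refine ⟨⟨by simp, by simp⟩, by simp, by simp⟩
  have h := hSB (X.sl x + X.sl y + 1) M x [] y hred (by simp)
  unfold Ctx.PB at h
  simpa [Ctx.aK] using h

theorem eps_nil_eq_zero {M : ℕ} {x y : W} (h : X.eps M x [] y = 0) : X.Ge M x ∧ X.Ge M y := by
  unfold Ctx.eps at h
  simp only [List.prod_nil, mul_one, one_mul] at h
  split_ifs at h with h1
  · exact absurd h one_ne_zero
  · push Not at h1
    rwa [mul_one, one_mul] at h1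

theorem h_f3 (hH2 : H_2) (hE2 : E_2) (hI2 : I_2) (hF1 : F_1) (hF2 : F_2) : F_3 := by
  intro I W V H _ _ _ X hSA hSB
  classical
  obtain ⟨-, -, -, hc1, -, hc2, -, -, -, -⟩ := hH2 I W H X.M X.cs X.L X.wt X.D
  obtain ⟨-, -, -, hGe0, -⟩ := hE2 I W V H X
  refine ⟨?_, ?_⟩
  · intro m x y z hm hz
    rcases m with _ | M
    · exact hGe0 z
    · by_contra hcon
      apply hz
      refine (hF2 I W V H X hSA M (X.h x y)).2 ?_ z hcon
      rw [← X.isH x y]
      rcases hm with hx | hy
      · exact (hI2 I W V H X M (X.D.c x) (X.D.c y) (hF1 I W V H X hSA M x hx).1).2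
      · exact (hI2 I W V H X M (X.D.c y) (X.D.c x) (hF1 I W V H X hSA M y hy).1).1
  · intro M x y z hz
    -- the coordinates of the `c`
    have hdeg : ∀ w w', DegLE 0 (X.D.t.repr (X.D.c w) w') := by
      intro w w'
      by_cases h : w' = w
      · rw [h, hc1]
        exact DegLE.one le_rfl
      · exact (hc2 w w' h).mono (by norm_num)
    have hexp : ∀ w, X.D.c w = ∑ w' ∈ (X.D.t.repr (X.D.c w)).support,
        X.D.t.repr (X.D.c w) w' • X.D.t w' := by
      intro w
      conv_lhs => rw [← X.D.t.linearCombination_repr (X.D.c w)]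
      rfl
    set A := (X.D.t.repr (X.D.c x)).support with hA
    set B := (X.D.t.repr (X.D.c y)).support with hB
    set N : ℕ := A.sup X.sl + B.sup X.sl with hN
    set ε : ℤ := X.eps M x [] y with hε
    have hε0 : 0 ≤ ε := X.eps_nonneg M x [] y
    have hε1 : ε ≤ 1 := X.eps_le_one M x [] y
    have hprod : X.D.c x * X.D.c y = ∑ x' ∈ A, ∑ y' ∈ B,
        (X.D.t.repr (X.D.c x) x' * X.D.t.repr (X.D.c y) y') • (X.D.t x' * X.D.t y') := by
      conv_lhs => rw [hexp x, hexp y]
      rw [Finset.sum_mul_sum]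
      refine Finset.sum_congr rfl fun x' _ => Finset.sum_congr rfl fun y' _ => ?_
      rw [smul_mul_smul_comm]
    have hlam : X.Lam M N ((M : ℤ) - ε) (X.D.c x * X.D.c y) := by
      rw [hprod]
      refine Ctx.Lam.sum fun x' hx' => Ctx.Lam.sum fun y' hy' => ?_
      have h1 := (tt_lamT X hSB M x' y').lam
      have hn : X.sl x' + X.sl y' ≤ N :=
        add_le_add (Finset.le_sup (f := X.sl) hx') (Finset.le_sup (f := X.sl) hy')
      by_cases hxy : x' = x ∧ y' = y
      · obtain ⟨rfl, rfl⟩ := hxy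
        rw [hc1, hc1, mul_one]
        exact Ctx.Lam.smul_le (DegLE.one le_rfl) h1 hn (by omega)
      · have h2 : DegLE (-1) (X.D.t.repr (X.D.c x) x' * X.D.t.repr (X.D.c y) y') := by
          by_cases hx : x' = x
          · have hy : y' ≠ y := fun h => hxy ⟨hx, h⟩
            exact DegLE.mul_le (hdeg x x') (hc2 y y' hy) (by omega)
          · exact DegLE.mul_le (hc2 x x' hx) (hdeg y y') (by omega)
        have h3 := X.eps_nonneg M x' [] y'
        exact Ctx.Lam.smul_le h2 h1 hn (by omega)
    rw [X.isH x y] at hlam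
    have hmain : DegLE ((M : ℤ) - ε) (X.h x y z) :=
      (hF2 I W V H X hSA M (X.h x y)).1 N _ hlam z hz
    refine ⟨hmain.mono (by omega), fun hne => ?_⟩
    have hε' : ε = 0 := by
      by_contra h
      apply hne
      exact hmain M (by omega)
    exact eps_nil_eq_zero X (hε.symm.trans hε')

end Pool.Agent.Helper5.RA
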